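import Pool.Agent.Helper83.WB.Li
import Pool.Agent.Helper94.BR.Ms
import Pool.Agent.Helper33.DV.Ev3

/-!
# Project DV, block WB: environments of finite families of blocks with two pins
-/

open MeasureTheory Filter Topology

namespace DV

open RP4 (V Om dom BdryPar Deloc mass)
open GF (Pl Cc Tst ell lap Kc dir JJ bx)
open GF.Lat (Xd cc_box DirZ dr)
open PL (AB)
open SW (iw)

/-- two pins and a finite family of blocks -/
def WE (y₁ y₂ : Pl) (r s : ℝ) (Z : Finset (Pl × ℝ × ℝ)) (δ : ℝ) (g : V → ℤ) : Prop :=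
  Bk 0 δ y₁ r s g ∧ Bk 0 δ y₂ r s g ∧ ∀ z ∈ Z, Bk 0 δ z.1 z.2.1 z.2.2 g

lemma dec_and {E F : (V → ℤ) → Prop} (hE : Dec E) (hF : Dec F) : Dec fun g => E g ∧ F g :=
  ⟨fun g => and_congr (hE.abs g) (hF.abs g), fun g g' h0 h hh => ⟨hE.mono g g' h0 h hh.1, hF.mono g g' h0 h hh.2⟩⟩

lemma dec_all {ι : Type} (J : Finset ι) {E : ι → (V → ℤ) → Prop} (h : ∀ i ∈ J, Dec (E i)) :
    Dec fun g => ∀ i ∈ J, E i g :=
  ⟨fun g => forall₂_congr fun i hi => (h i hi).abs g,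
    fun g g' h0 h1 hh i hi => (h i hi).mono g g' h0 h1 (hh i hi)⟩

lemma dec_blkF (Z : Finset (Pl × ℝ × ℝ)) (δ : ℝ) : Dec (BlkF Z δ) := dec_all Z fun _ _ => bk_dec _ _ _ _

lemma dec_WE (y₁ y₂ : Pl) (r s : ℝ) (Z : Finset (Pl × ℝ × ℝ)) (δ : ℝ) : Dec (WE y₁ y₂ r s Z δ) :=
  dec_and (bk_dec _ _ _ _) (dec_and (bk_dec _ _ _ _) (dec_blkF Z δ))

lemma iw_nonneg (E : (V → ℤ) → Prop) (g : V → ℤ) : 0 ≤ iw E g := by
  unfold SW.iw
  split_ifs <;> norm_num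

lemma iw_even {E : (V → ℤ) → Prop} (hE : Dec E) (h h' : V → ℤ) (hh : ∀ v, |h v| = |h' v|) : iw E h = iw E h' := by
  refine iw_congr ?_
  rw [← hE.abs h, ← hE.abs h']
  have : absf h = absf h' := by
    funext v
    exact hh v
  rw [this]

/-- the sites of a finite family of blocks -/
noncomputable def wsit (Z : Finset (Pl × ℝ × ℝ)) (δ : ℝ) : Finset V := by
  classical exact Z.biUnion fun z => Is δ z.1 z.2.2

lemma mem_wsit {Z : Finset (Pl × ℝ × ℝ)} {δ : ℝ} (hδ : 0 < δ) {v : V} :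
    v ∈ wsit Z δ ↔ ∃ z ∈ Z, dist (pt δ v) z.1 ≤ z.2.2 := by
  classical
  unfold wsit
  rw [Finset.mem_biUnion]
  exact exists_congr fun z => and_congr_right fun _ => mem_Is hδ

lemma blkF_loc {Z : Finset (Pl × ℝ × ℝ)} {δ : ℝ} (hδ : 0 < δ) (h : ∀ z ∈ Z, z.2.1 + δ < z.2.2) {g g' : V → ℤ}
    (hg : ∀ v ∈ wsit Z δ, g v = g' v) : BlkF Z δ g ↔ BlkF Z δ g' :=
  forall₂_congr fun z hz => bk_loc hδ (h z hz) fun v hv => hg v ((mem_wsit hδ).2 ⟨z, hz, hv.le⟩)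

lemma ev_all {Z : Finset (Pl × ℝ × ℝ)} (h : ∀ z ∈ Z, z.2.1 < z.2.2) :
    ∀ᶠ δ in 𝓝[>] (0 : ℝ), ∀ z ∈ Z, z.2.1 + δ < z.2.2 := by
  rw [Filter.eventually_all_finset]
  intro z hz
  have h1 : ∀ᶠ δ in 𝓝[>] (0 : ℝ), δ < z.2.2 - z.2.1 :=
    mem_nhdsWithin_of_mem_nhds (gt_mem_nhds (sub_pos.2 (h z hz)))
  filter_upwards [h1] with δ h2
  linarith

/-- the weight of two pins and blocks is local and pinned -/
theorem pn_WE {y₁ y₂ : Pl} {r s : ℝ} (hr : 0 < r) (hrs : r < s) {Z : Finset (Pl × ℝ × ℝ)}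
    (hZ : ∀ z ∈ Z, z.2.1 < z.2.2) : ∀ᶠ δ in 𝓝[>] (0 : ℝ), ∃ t, Pn t (cx (iw (WE y₁ y₂ r s Z δ))) := by
  classical
  have h1 : ∀ᶠ δ in 𝓝[>] (0 : ℝ), δ < r := mem_nhdsWithin_of_mem_nhds (gt_mem_nhds hr)
  have h2 : ∀ᶠ δ in 𝓝[>] (0 : ℝ), δ < s - r := mem_nhdsWithin_of_mem_nhds (gt_mem_nhds (sub_pos.2 hrs))
  have hpos : ∀ᶠ δ in 𝓝[>] (0 : ℝ), 0 < δ := self_mem_nhdsWithin
  filter_upwards [h1, h2, hpos, ev_all hZ] with δ h1 h2 h3 h4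
  set t : Finset V := Is δ y₁ s ∪ Is δ y₂ s ∪ wsit Z δ with ht
  refine ⟨t, ?_⟩
  have hF : ∀ g g' : V → ℤ, (∀ x ∈ t, g x = g' x) →
      ic (fun g => Bk 0 δ y₂ r s g ∧ BlkF Z δ g) g = ic (fun g => Bk 0 δ y₂ r s g ∧ BlkF Z δ g) g' := by
    intro g g' hg
    refine ic_congr (and_congr ?_ ?_)
    · exact bk_loc h3 (by linarith) fun v hv => hg v (by
        rw [ht, Finset.mem_union, Finset.mem_union]
        exact Or.inl (Or.inr ((mem_Is h3).2 hv.le)))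
    · exact blkF_loc h3 h4 fun v hv => hg v (Finset.mem_union_right _ hv)
  have hP := PR_bk h3 h1.le (by linarith) 0 (t := t) (z := y₁) (s := s) (by
    intro v hv
    rw [ht, Finset.mem_union, Finset.mem_union]
    exact Or.inl (Or.inl hv)) hF
  have e : (cx (iw (WE y₁ y₂ r s Z δ))) = fun g =>
      ((ic (Bk 0 δ y₁ r s) g * ic (fun g => Bk 0 δ y₂ r s g ∧ BlkF Z δ g) g : ℝ) : ℂ) := by
    funext g
    rw [← ic_and]
    rfl
  rw [e]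
  exact hP

/-- **The weight of two pins and finitely many blocks** satisfies the hypotheses of the environments. -/
theorem wdat_WE (hd : Deloc) (hF : FlatC) (hZC : ZoneC) {l : Filter ℝ} (hl : l ≤ 𝓝[>] 0) {y₁ y₂ : Pl} {r s : ℝ}
    (hr : 0 < r) (hrs : r < s) (h12 : 2 * s < dist y₁ y₂) {Z : Finset (Pl × ℝ × ℝ)}
    (hZ : ∀ z ∈ Z, z.2.1 < z.2.2) (hoff : ∀ z ∈ Z, s + z.2.2 ≤ dist z.1 y₁ ∧ s + z.2.2 ≤ dist z.1 y₂)
    (hpos : ∀ᶠ δ in l, 0 < MR (iw (WE y₁ y₂ r s Z δ))) : WDat l fun δ => iw (WE y₁ y₂ r s Z δ) where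
  nonneg := fun δ h => iw_nonneg _ h
  even := fun δ h h' hh => iw_even (dec_WE y₁ y₂ r s Z δ) h h' hh
  pin := (pn_WE hr hrs hZ).filter_mono hl
  pos := hpos
  mom := by
    intro f hf n
    obtain ⟨C, hC, h⟩ := bar_mom hd hF hZC y₁ y₂ hr hrs h12 hf n
    refine ⟨C, ?_⟩
    have h1 : ∀ᶠ δ in l, 0 < δ := hl self_mem_nhdsWithin
    filter_upwards [hl h, hl (ev_all hZ), h1, hpos] with δ h2 h3 h4 h5
    have h6 := h2 (wsit Z δ) (BlkF Z δ) (fun v hv => by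
      obtain ⟨z, hz, hvz⟩ := (mem_wsit h4).1 hv
      obtain ⟨a1, a2⟩ := hoff z hz
      have b1 := dist_triangle z.1 (pt δ v) y₁
      have b2 := dist_triangle z.1 (pt δ v) y₂
      rw [dist_comm z.1 (pt δ v)] at b1 b2
      constructor <;> linarith) (dec_blkF Z δ) fun g g' hg => blkF_loc h4 h3 hg
    unfold qt
    rw [div_le_iff₀ h5]
    have e : (fun g => ic (fun g => Bk 0 δ y₁ r s g ∧ Bk 0 δ y₂ r s g ∧ BlkF Z δ g) g * Xd δ f g ^ (2 * n)) =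
        fun g => Xd δ f g ^ (2 * n) * iw (WE y₁ y₂ r s Z δ) g := by
      funext g
      rw [mul_comm]
      rfl
    rw [e] at h6
    exact h6

/-- the pins and blocks as one finite family -/
noncomputable def famZ (y₁ y₂ : Pl) (r s : ℝ) (Z : Finset (Pl × ℝ × ℝ)) : Finset (Pl × ℝ × ℝ) := by
  classical exact insert (y₁, r, s) (insert (y₂, r, s) Z)

lemma WE_eq (y₁ y₂ : Pl) (r s : ℝ) (Z : Finset (Pl × ℝ × ℝ)) (δ : ℝ) : WE y₁ y₂ r s Z δ = BlkF (famZ y₁ y₂ r s Z) δ := by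
  classical
  funext g
  unfold WE BlkF famZ
  simp only [Finset.mem_insert, forall_eq_or_imp]

lemma card_famZ (y₁ y₂ : Pl) (r s : ℝ) (Z : Finset (Pl × ℝ × ℝ)) : (famZ y₁ y₂ r s Z).card ≤ Z.card + 2 := by
  classical
  unfold famZ
  have h1 := Finset.card_insert_le (y₁, r, s) (insert (y₂, r, s) Z)
  have h2 := Finset.card_insert_le (y₂, r, s) Z
  omega

/-- **Environment data of two pins and finitely many blocks** on an open set `W`: around every point of `W` there is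
room for six lines. -/
theorem envDat_WE (hd : Deloc) (hF : FlatC) (hZC : ZoneC) {l : Filter ℝ} (hl : l ≤ 𝓝[>] 0) {y₁ y₂ : Pl} {r s : ℝ}
    (hr : 0 < r) (hrs : r < s) (h12 : 2 * s < dist y₁ y₂) {Z : Finset (Pl × ℝ × ℝ)}
    (hZ : ∀ z ∈ Z, z.2.1 < z.2.2) (hoff : ∀ z ∈ Z, s + z.2.2 ≤ dist z.1 y₁ ∧ s + z.2.2 ≤ dist z.1 y₂)
    {m₀ : ℝ} (hm : 0 < m₀) (hlow : ∀ᶠ δ in l, m₀ ≤ MR (iw (WE y₁ y₂ r s Z δ))) {W : Set Pl}
    (hW : ∀ x ∈ W, ∃ r₀ > 0, ∃ R₁ ≥ 0, ((Z.card : ℝ) + 3) * (2 * R₁) < r₀ ∧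
      (∀ z ∈ Z, 9 * r₀ ≤ dist x z.1 ∧ z.2.2 ≤ R₁) ∧
      ∀ i, 4 * r₀ + 2 * s < |LL i y₁ - LL i x| ∧ 4 * r₀ + 2 * s < |LL i y₂ - LL i x|) :
    EnvDat l W (Kc hd) fun δ => iw (WE y₁ y₂ r s Z δ) := by
  classical
  have hpos : ∀ᶠ δ in l, 0 < MR (iw (WE y₁ y₂ r s Z δ)) := hlow.mono fun δ h => hm.trans_le h
  have hWD := wdat_WE hd hF hZC hl hr hrs h12 hZ hoff hpos
  refine { toWDat := hWD, shift := fun x hx => ?_ }
  obtain ⟨r₀, hr₀, R₁, hR₁, hc, hball, hpin⟩ := hW x hx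
  refine ⟨r₀, hr₀, fun u f hu hus hf => ?_⟩
  have e : (fun δ => iw (WE y₁ y₂ r s Z δ)) = fun δ => iw (BlkF (famZ y₁ y₂ r s Z) δ) := by
    funext δ
    rw [WE_eq]
  rw [e] at hWD ⊢
  have hlow' : ∀ᶠ δ in l, m₀ ≤ MR (iw (BlkF (famZ y₁ y₂ r s Z) δ)) := by
    filter_upwards [hlow] with δ h
    rwa [WE_eq] at h
  refine shift_blocks hd hl (Z := famZ y₁ y₂ r s Z) ?_ hWD hm hlow' hr₀ hR₁ ?_ ?_ hu.toCc hus hf.toCc
  · intro z hz
    unfold famZ at hz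
    rw [Finset.mem_insert, Finset.mem_insert] at hz
    rcases hz with rfl | rfl | hz
    · exact hrs
    · exact hrs
    · exact hZ z hz
  · have h1 : (((famZ y₁ y₂ r s Z).card : ℕ) : ℝ) ≤ (Z.card : ℝ) + 2 := by
      exact_mod_cast card_famZ y₁ y₂ r s Z
    refine lt_of_le_of_lt ?_ hc
    have h2 : (0 : ℝ) ≤ 2 * R₁ := by linarith
    nlinarith
  · intro z hz
    unfold famZ at hz
    rw [Finset.mem_insert, Finset.mem_insert] at hz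
    rcases hz with rfl | rfl | hz
    · exact Or.inr ⟨(hr.trans hrs).le, fun i => (hpin i).1⟩
    · exact Or.inr ⟨(hr.trans hrs).le, fun i => (hpin i).2⟩
    · exact Or.inl (hball z hz)

end DV
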