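import Pool.Agent.Helper83.DV.Sm
import Pool.Agent.Helper94.BR.Bl
import Pool.Agent.Helper78.SW.Qt

/-!
# Project DV, block WB: the shift identity for finite families of blocks

`exists_lines`: six lines around a point which avoid finitely many small balls and some large balls far away.
-/

open MeasureTheory Filter Topology

namespace DV

open RP4 (V Om dom BdryPar Deloc mass)
open GF (Pl Cc ell lap Kc dir JJ bx)
open GF.Lat (Xd cc_box DirZ dr)
open PL (AB)
open SW (iw)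

/-! ### the positions of the lines -/

/-- a point of an interval which is far from finitely many points -/
theorem exists_gap {ι : Type} [Fintype ι] (x : ι → ℝ) {A B : ℝ} (hAB : A < B) :
    ∃ t, A + (B - A) / (2 * (Fintype.card ι + 1)) ≤ t ∧ t ≤ B - (B - A) / (2 * (Fintype.card ι + 1)) ∧
      ∀ a, (B - A) / (2 * (Fintype.card ι + 1)) ≤ |t - x a| := by
  classical
  set J : ℕ := Fintype.card ι with hJ
  have hJ1 : (0 : ℝ) < (J : ℝ) + 1 := by positivity
  set h : ℝ := (B - A) / (2 * (J + 1)) with hh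
  have hpos : 0 < h := div_pos (sub_pos.2 hAB) (by positivity)
  have hw : h * (2 * (J + 1)) = B - A := by
    rw [hh]
    field_simp
  set c : Fin (J + 1) → ℝ := fun k => A + (2 * (k : ℕ) + 1) * h with hc
  by_contra hcon
  push Not at hcon
  have h1 : ∀ k : Fin (J + 1), ∃ a, |c k - x a| < h := by
    intro k
    have hk : ((k : ℕ) : ℝ) ≤ J := by exact_mod_cast Nat.lt_succ_iff.1 k.2
    have hk0 : (0 : ℝ) ≤ (k : ℕ) := Nat.cast_nonneg _
    refine hcon (c k) ?_ ?_
    · simp only [hc]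
      nlinarith
    · simp only [hc]
      nlinarith
  choose a ha using h1
  obtain ⟨k, k', hkk, hak⟩ := Fintype.exists_ne_map_eq_of_card_lt a (by
    rw [Fintype.card_fin]
    exact Nat.lt_succ_self _)
  have h2 := ha k
  have h3 := ha k'
  rw [← hak] at h3
  have h4 : |c k - c k'| < 2 * h := by
    have := abs_sub_le (c k) (x (a k)) (c k')
    rw [abs_sub_comm (x (a k)) (c k')] at this
    linarith
  have h5 : c k - c k' = 2 * h * (((k : ℕ) : ℝ) - ((k' : ℕ) : ℝ)) := by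
    simp only [hc]
    ring
  have h6 : 1 ≤ |((k : ℕ) : ℝ) - ((k' : ℕ) : ℝ)| := by
    have h7 : ((k : ℕ) : ℤ) - ((k' : ℕ) : ℤ) ≠ 0 := by
      intro h8
      apply hkk
      apply Fin.ext
      omega
    have h8 := Int.one_le_abs h7
    have h9 : ((1 : ℤ) : ℝ) ≤ ((|((k : ℕ) : ℤ) - ((k' : ℕ) : ℤ)| : ℤ) : ℝ) := by exact_mod_cast h8
    push_cast at h9
    exact h9
  rw [h5, abs_mul, abs_of_pos (by positivity : (0 : ℝ) < 2 * h)] at h4
  nlinarith

lemma LL_lip (i : Fin 6) (v c : Pl) : |LL i v - LL i c| ≤ 2 * dist v c := by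
  obtain ⟨a1, a2⟩ := PL.dr_le (dd i) (dd_dir i)
  have e : LL i v - LL i c = (dr (dd i)).1 * (v.1 - c.1) + (dr (dd i)).2 * (v.2 - c.2) := by
    unfold LL ell
    ring
  have h1 : |v.1 - c.1| ≤ dist v c := by
    rw [Prod.dist_eq, Real.dist_eq]
    exact le_max_left _ _
  have h2 : |v.2 - c.2| ≤ dist v c := by
    rw [Prod.dist_eq, Real.dist_eq, Real.dist_eq]
    exact le_max_right _ _
  rw [e]
  refine (abs_add_le _ _).trans ?_
  rw [abs_mul, abs_mul]
  have h4 := mul_le_of_le_one_left (abs_nonneg (v.1 - c.1)) a1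
  have h5 := mul_le_of_le_one_left (abs_nonneg (v.2 - c.2)) a2
  linarith

lemma LL_zero (z : Pl) : LL 0 z = z.1 := by
  simp [LL, dd, ell, dr]

lemma LL_two (z : Pl) : LL 2 z = z.2 := by
  simp [LL, dd, ell, dr]

lemma LL_four (z : Pl) : LL 4 z = -z.1 := by
  simp [LL, dd, ell, dr]

lemma LL_five (z : Pl) : LL 5 z = -z.1 - z.2 := by
  simp [LL, dd, ell, dr]
  ring

/-- a far point is beyond one of the lines -/
lemma far_beyond {x c : Pl} {r₀ : ℝ} (hr₀ : 0 < r₀) (h : 9 * r₀ ≤ dist x c) : ∃ i, LL i x + 4 * r₀ < LL i c := by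
  rw [Prod.dist_eq, le_max_iff, Real.dist_eq, Real.dist_eq, le_abs, le_abs] at h
  by_cases h0 : LL 0 x + 4 * r₀ < LL 0 c
  · exact ⟨0, h0⟩
  by_cases h2 : LL 2 x + 4 * r₀ < LL 2 c
  · exact ⟨2, h2⟩
  by_cases h4 : LL 4 x + 4 * r₀ < LL 4 c
  · exact ⟨4, h4⟩
  refine ⟨5, ?_⟩
  rw [LL_zero, LL_zero] at h0
  rw [LL_two, LL_two] at h2
  rw [LL_four, LL_four] at h4
  rw [LL_five, LL_five]
  rcases h with (h | h) | (h | h) <;> linarith

/-- **Six lines around `x`** which avoid small balls and large balls far away. -/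
theorem exists_lines (Z : Finset (Pl × ℝ × ℝ)) (x : Pl) {r₀ R₁ : ℝ} (hr₀ : 0 < r₀) (hR₁ : 0 ≤ R₁)
    (hc : ((Z.card : ℝ) + 1) * (2 * R₁) < r₀)
    (hZ : ∀ z ∈ Z, (9 * r₀ ≤ dist x z.1 ∧ z.2.2 ≤ R₁) ∨
      (0 ≤ z.2.2 ∧ ∀ i, 4 * r₀ + 2 * z.2.2 < |LL i z.1 - LL i x|)) :
    ∃ (s : Fin 6 → ℝ) (κ : ℝ), 0 < κ ∧ (∀ i, LL i x + 2 * r₀ < s i - κ ∧ s i + κ < LL i x + 4 * r₀) ∧
      ∀ z ∈ Z, ∃ i, Metric.closedBall z.1 z.2.2 ⊆ Rr (fun i => s i - κ) (fun i => s i + κ) i := by
  classical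
  have hJ1 : (0 : ℝ) < (Z.card : ℝ) + 1 := by positivity
  have hgap : ∀ i : Fin 6, ∃ t, LL i x + 2 * r₀ + r₀ / (Z.card + 1) ≤ t ∧ t ≤ LL i x + 4 * r₀ - r₀ / (Z.card + 1) ∧
      ∀ z ∈ Z, r₀ / (Z.card + 1) ≤ |t - LL i z.1| := by
    intro i
    obtain ⟨t, h1, h2, h3⟩ := exists_gap (ι := Z) (fun z => LL i z.1.1)
      (A := LL i x + 2 * r₀) (B := LL i x + 4 * r₀) (by linarith)
    have e : (LL i x + 4 * r₀ - (LL i x + 2 * r₀)) / (2 * ((Fintype.card Z : ℝ) + 1)) = r₀ / (Z.card + 1) := by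
      rw [Fintype.card_coe]
      field_simp
      ring
    rw [e] at h1 h2 h3
    exact ⟨t, h1, h2, fun z hz => h3 ⟨z, hz⟩⟩
  choose s hs1 hs2 hs3 using hgap
  set w : ℝ := r₀ / (Z.card + 1) with hw
  have hw0 : 2 * R₁ < w := by
    rw [hw, lt_div_iff₀ hJ1]
    linarith
  set κ : ℝ := (w - 2 * R₁) / 2 with hκ
  have hκ0 : 0 < κ := by rw [hκ]; linarith
  have hκw : κ < w := by rw [hκ]; linarith
  have hκR : 2 * R₁ + κ < w := by rw [hκ]; linarith
  refine ⟨s, κ, hκ0, fun i => ⟨by linarith [hs1 i], by linarith [hs2 i]⟩, fun z hz => ?_⟩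
  -- every line is missed by the ball, on one side or the other
  have hside : ∀ i, (∀ v ∈ Metric.closedBall z.1 z.2.2, s i + κ < LL i v) ∨
      ∀ v ∈ Metric.closedBall z.1 z.2.2, LL i v < s i - κ := by
    intro i
    have hb : ∀ v ∈ Metric.closedBall z.1 z.2.2, |LL i v - LL i z.1| ≤ 2 * z.2.2 := by
      intro v hv
      have h1 : dist v z.1 ≤ z.2.2 := Metric.mem_closedBall.1 hv
      have := LL_lip i v z.1
      linarith
    rcases hZ z hz with ⟨-, hR⟩ | ⟨-, hbig⟩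
    · have h1 := hs3 i z hz
      rcases le_abs.1 h1 with h2 | h2
      · right
        intro v hv
        have h3 := (abs_le.1 (hb v hv)).2
        linarith
      · left
        intro v hv
        have h3 := (abs_le.1 (hb v hv)).1
        linarith
    · rcases lt_abs.1 (hbig i) with h2 | h2
      · left
        intro v hv
        have h3 := (abs_le.1 (hb v hv)).1
        linarith [hs2 i]
      · right
        intro v hv
        have h3 := (abs_le.1 (hb v hv)).2
        linarith [hs1 i]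
  -- the ball is beyond one of the lines
  have hex : ∃ i, ∀ v ∈ Metric.closedBall z.1 z.2.2, s i + κ < LL i v := by
    rcases hZ z hz with ⟨hd, hR⟩ | ⟨hR0, hbig⟩
    · obtain ⟨i, hi⟩ := far_beyond hr₀ hd
      refine ⟨i, ?_⟩
      rcases hside i with h | h
      · exact h
      · intro v hv
        -- the ball is not empty, so its center is in it
        have h0 : 0 ≤ z.2.2 := dist_nonneg.trans (Metric.mem_closedBall.1 hv)
        have h1 := h z.1 (Metric.mem_closedBall_self h0)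
        have h2 := hs2 i
        exfalso
        linarith
    · rcases lt_abs.1 (hbig 0) with h2 | h2
      · refine ⟨0, ?_⟩
        rcases hside 0 with h | h
        · exact h
        · intro v hv
          have h1 := h z.1 (Metric.mem_closedBall_self hR0)
          have h3 := hs2 0
          exfalso
          linarith
      · refine ⟨4, ?_⟩
        rcases hside 4 with h | h
        · exact h
        · intro v hv
          have h1 := h z.1 (Metric.mem_closedBall_self hR0)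
          have h3 := hs2 4
          rw [LL_zero, LL_zero] at h2
          rw [LL_four] at h1
          rw [LL_four] at h3
          exfalso
          linarith
  -- the first such line
  have hmin := Finset.exists_min_image (Finset.univ.filter fun i : Fin 6 =>
    ∀ v ∈ Metric.closedBall z.1 z.2.2, s i + κ < LL i v) id (by
      obtain ⟨i, hi⟩ := hex
      exact ⟨i, Finset.mem_filter.2 ⟨Finset.mem_univ _, hi⟩⟩)
  obtain ⟨i, hi, hmin⟩ := hmin
  refine ⟨i, fun v hv => ⟨(Finset.mem_filter.1 hi).2 v hv, fun j hj => ?_⟩⟩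
  rcases hside j with h | h
  · exact absurd (hmin j (Finset.mem_filter.2 ⟨Finset.mem_univ _, h⟩)) (not_le.2 hj)
  · exact h v hv

/-! ### blocks as factors -/

lemma iw_congr {E E' : (V → ℤ) → Prop} {g g' : V → ℤ} (h : E g ↔ E' g') : iw E g = iw E' g' := by
  unfold SW.iw
  by_cases h1 : E g
  · rw [if_pos h1, if_pos (h.1 h1)]
  · rw [if_neg h1, if_neg fun h2 => h1 (h.2 h2)]

/-- a block as a bounded local family -/
theorem AB_blk {K : Set Pl} {c : Pl} {r R : ℝ} (hrR : r < R) (hK : Metric.closedBall c R ⊆ K) :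
    AB false K (fun δ => cx (iw (Bk 0 δ c r R))) := by
  refine ⟨⟨1, Eventually.of_forall fun δ h => ?_⟩, ⟨|c.1| + |c.2| + |R| + 1, by positivity, ?_⟩, fun h => by simp at h⟩
  · simp only [cx, SW.iw]
    split_ifs <;> simp
  · have h1 : ∀ᶠ δ in 𝓝[>] (0 : ℝ), δ < R - r := mem_nhdsWithin_of_mem_nhds (gt_mem_nhds (sub_pos.2 hrR))
    have hpos : ∀ᶠ δ in 𝓝[>] (0 : ℝ), 0 < δ := self_mem_nhdsWithin
    filter_upwards [h1, hpos] with δ h2 h3
    refine ⟨Is δ c R, fun g g' hg => ?_, fun v hv => ?_⟩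
    · have h4 : Bk 0 δ c r R g ↔ Bk 0 δ c r R g' := bk_loc h3 (by linarith) fun v hv =>
        hg v ((mem_Is h3).2 hv.le)
      simp only [cx]
      rw [iw_congr h4]
    · have h4 : dist (pt δ v) c ≤ R := (mem_Is h3).1 hv
      refine ⟨hK (Metric.mem_closedBall.2 h4), ?_⟩
      rw [Prod.dist_eq, max_le_iff, Real.dist_eq, Real.dist_eq] at h4
      have e1 : PL.sc δ v = pt δ v := rfl
      rw [e1]
      have hR : |R| = R := abs_of_nonneg ((abs_nonneg _).trans h4.1)
      constructor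
      · simp only [Prod.fst_zero, sub_zero]
        have := abs_sub_abs_le_abs_sub (pt δ v).1 c.1
        have := abs_nonneg c.2
        rw [hR]
        linarith [h4.1]
      · simp only [Prod.snd_zero, sub_zero]
        have := abs_sub_abs_le_abs_sub (pt δ v).2 c.2
        have := abs_nonneg c.1
        rw [hR]
        linarith [h4.2]

/-- all the blocks of a finite family -/
def BlkF (Z : Finset (Pl × ℝ × ℝ)) (δ : ℝ) (g : V → ℤ) : Prop := ∀ z ∈ Z, Bk 0 δ z.1 z.2.1 z.2.2 g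

lemma iw_blkF (Z : Finset (Pl × ℝ × ℝ)) (δ : ℝ) (g : V → ℤ) :
    iw (BlkF Z δ) g = ∏ z : Z, iw (Bk 0 δ z.1.1 z.1.2.1 z.1.2.2) g := by
  classical
  unfold SW.iw
  by_cases h : BlkF Z δ g
  · rw [if_pos h]
    symm
    refine Finset.prod_eq_one fun z _ => ?_
    rw [if_pos (h z.1 z.2)]
  · rw [if_neg h]
    unfold BlkF at h
    push Not at h
    obtain ⟨z, hz, hz'⟩ := h
    symm
    refine Finset.prod_eq_zero (Finset.mem_univ (⟨z, hz⟩ : Z)) ?_
    rw [if_neg hz']

/-- **The shift identity for a finite family of blocks**, near a point with six lines. -/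
theorem shift_blocks (hdl : Deloc) {l : Filter ℝ} (hl : l ≤ 𝓝[>] 0) {Z : Finset (Pl × ℝ × ℝ)}
    (hrR : ∀ z ∈ Z, z.2.1 < z.2.2) (hW : WDat l fun δ => iw (BlkF Z δ)) {m₀ : ℝ} (hm : 0 < m₀)
    (hlow : ∀ᶠ δ in l, m₀ ≤ MR (iw (BlkF Z δ))) {x : Pl} {r₀ R₁ : ℝ} (hr₀ : 0 < r₀) (hR₁ : 0 ≤ R₁)
    (hc : ((Z.card : ℝ) + 1) * (2 * R₁) < r₀)
    (hZ : ∀ z ∈ Z, (9 * r₀ ≤ dist x z.1 ∧ z.2.2 ≤ R₁) ∨
      (0 ≤ z.2.2 ∧ ∀ i, 4 * r₀ + 2 * z.2.2 < |LL i z.1 - LL i x|))
    {u f : Pl → ℝ} (hu : Cc u) (hus : tsupport u ⊆ Metric.ball x r₀) (hf : Cc f) :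
    Tendsto (fun δ => qt (fun δ => iw (BlkF Z δ)) (fun δ h => Real.cos (Xd δ (fun w => f w + lap u w) h)) δ -
      Real.exp (Kc hdl / 2 * JJ f u) * qt (fun δ => iw (BlkF Z δ)) (fun δ h => Real.cos (Xd δ f h)) δ) l (𝓝 0) := by
  obtain ⟨s, κ, hκ, h1, h2⟩ := exists_lines Z x hr₀ hR₁ hc hZ
  have hQ : Metric.ball x r₀ ⊆ Qr fun i => s i - κ := by
    intro v hv i
    have h3 := (abs_le.1 (LL_lip i v x)).2
    have h4 : dist v x < r₀ := Metric.mem_ball.1 hv
    have h5 := (h1 i).1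
    linarith
  refine shift_prod hdl hl hW hm hlow hκ ⟨x, hQ (Metric.mem_ball_self hr₀)⟩ (ι := Z)
    (fun z δ => iw (Bk 0 δ z.1.1 z.1.2.1 z.1.2.2)) (fun z => ?_) (Eventually.of_forall fun δ h => iw_blkF Z δ h)
    hu (hus.trans hQ) hf
  obtain ⟨i, hi⟩ := h2 z.1 z.2
  exact ⟨i, AB_blk (hrR z.1 z.2) hi⟩

end DV
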